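import Pool.Agent.H74.HG.Stage2

set_option autoImplicit false

/-!
The scale by scale argument on the grid with weights which depend on the scale: the isoperimetric
inequality with a factor of the order `log n`.
-/

namespace Pool.Agent.H74.HG

open Pool.Agent.Q90.HG Pool.Agent.Q90.HG.StageAux

/-- Bound for the number of stages up to `L` in which the length `a` is used. -/
noncomputable def hh (L a : ℕ) : ℝ :=
  if L ≤ a then 0 else 1 + 4 * (Real.log ((min L (4 * a) : ℕ) : ℝ) - Real.log a)

theorem hh_nonneg (L a : ℕ) : 0 ≤ hh L a := by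
  unfold hh
  split_ifs with h
  · exact le_rfl
  · rcases Nat.eq_zero_or_pos a with rfl | ha
    · simp
    · have h1 : Real.log (a : ℝ) ≤ Real.log ((min L (4 * a) : ℕ) : ℝ) :=
        Real.log_le_log (by exact_mod_cast ha) (by exact_mod_cast (by omega : a ≤ min L (4 * a)))
      linarith

theorem hh_mono {L' L : ℕ} (h : L' ≤ L) (a : ℕ) : hh L' a ≤ hh L a := by
  by_cases h1 : L' ≤ a
  · have : hh L' a = 0 := by unfold hh; rw [if_pos h1]
    rw [this]; exact hh_nonneg L a
  · have h2 : ¬ L ≤ a := by omega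
    unfold hh
    rw [if_neg h1, if_neg h2]
    rcases Nat.eq_zero_or_pos a with rfl | ha
    · simp
    · have h3 : Real.log ((min L' (4 * a) : ℕ) : ℝ) ≤ Real.log ((min L (4 * a) : ℕ) : ℝ) :=
        Real.log_le_log (by exact_mod_cast (by omega : 0 < min L' (4 * a)))
          (by exact_mod_cast (by omega : min L' (4 * a) ≤ min L (4 * a)))
      linarith

theorem hh_step {L m : ℕ} (hm : m = (L + 3) / 4) (hL : 2 ≤ L) {a : ℕ} (h1 : m ≤ a) (h2 : a < L) :
    hh (L - m) a + 1 ≤ hh L a := by
  have hm1 : 1 ≤ m := by omega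
  have ha : 0 < a := by omega
  have hLa : hh L a = 1 + 4 * (Real.log L - Real.log a) := by
    unfold hh
    rw [if_neg (by omega)]
    have : min L (4 * a) = L := by omega
    rw [this]
  rw [hLa]
  by_cases h3 : L - m ≤ a
  · have : hh (L - m) a = 0 := by unfold hh; rw [if_pos h3]
    rw [this]
    have h4 : Real.log (a : ℝ) ≤ Real.log L :=
      Real.log_le_log (by exact_mod_cast ha) (by exact_mod_cast h2.le)
    linarith
  · have h4 := log_step hm hL
    unfold hh
    rw [if_neg h3]
    have h5 : Real.log ((min (L - m) (4 * a) : ℕ) : ℝ) ≤ Real.log ((L - m : ℕ) : ℝ) :=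
      Real.log_le_log (by exact_mod_cast (by omega : 0 < min (L - m) (4 * a)))
        (by exact_mod_cast (by omega : min (L - m) (4 * a) ≤ L - m))
    linarith

theorem hh_le (L a : ℕ) : hh L a ≤ 7 := by
  unfold hh
  split_ifs with h
  · norm_num
  · rcases Nat.eq_zero_or_pos a with rfl | ha
    · simp
    · have h1 : Real.log ((min L (4 * a) : ℕ) : ℝ) ≤ Real.log ((4 : ℝ) * a) := by
        refine Real.log_le_log (by exact_mod_cast (by omega : 0 < min L (4 * a))) ?_
        have : min L (4 * a) ≤ 4 * a := by omega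
        calc ((min L (4 * a) : ℕ) : ℝ) ≤ ((4 * a : ℕ) : ℝ) := by exact_mod_cast this
          _ = 4 * (a : ℝ) := by push_cast; ring
      have ha' : (a : ℝ) ≠ 0 := by exact_mod_cast ha.ne'
      rw [Real.log_mul (by norm_num) ha'] at h1
      have h2 : Real.log (4 : ℝ) = 2 * Real.log 2 := by
        rw [show (4 : ℝ) = 2 ^ 2 by norm_num, Real.log_pow]; norm_num
      have h3 := Real.log_two_lt_d9
      linarith

/-- The weights of the stage `L`. -/
noncomputable def WL (n d : ℕ) (t B : ℝ) (L : ℕ) (ρ : Fin d × Fin n) : ℝ :=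
  Real.exp (4 * Real.log L / t) * B * hh L (ρ.2 : ℕ) * wt n d ρ

theorem wt_nonneg (n d : ℕ) (ρ : Fin d × Fin n) : 0 ≤ wt n d ρ := by unfold wt; positivity

theorem WL_nonneg (n d : ℕ) {t B : ℝ} (hB : 0 ≤ B) (L : ℕ) (ρ : Fin d × Fin n) :
    0 ≤ WL n d t B L ρ := by
  unfold WL
  have := hh_nonneg L (ρ.2 : ℕ)
  have := wt_nonneg n d ρ
  positivity

theorem dist_ind2 (n d : ℕ) [NeZero n] (_hn : 2 ≤ n) {t : ℝ} (ht : 0 < t) :
    ∀ L : ℕ, 1 ≤ L → L ≤ n → ∀ A ∈ ML n d L,
    gd n d A ≤ Phi (gs n d)
      (WL n d t ((1 + t) * (6 * Real.sqrt (8 * Real.log n + 1) + 16) ^ 2) L) A := by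
  classical
  intro L
  set κ : ℝ := 6 * Real.sqrt (8 * Real.log n + 1) + 16 with hκ
  have hκ0 : 0 ≤ κ := by positivity
  set B : ℝ := (1 + t) * κ ^ 2 with hB
  have hB0 : 0 ≤ B := by positivity
  induction L using Nat.strong_induction_on with
  | _ L ih =>
    intro hL1 hLn A hA
    rcases Nat.lt_or_ge L 2 with hL2 | hL2
    · have hL : L = 1 := by omega
      subst hL
      have h1 := gd_le A A (ml_one n d A hA)
      rw [sd_self] at h1
      exact h1.trans (Phi_nonneg _ _ _)
    · set m : ℕ := (L + 3) / 4 with hm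
      have hm1 : 1 ≤ m := by omega
      have hm2 : 4 * m ≤ L + 3 := by omega
      have hm3 : 2 * m ≤ L := by omega
      have hL' : 1 ≤ L - m := by omega
      have hLr : (1 : ℝ) ≤ (L : ℝ) := by exact_mod_cast hL1
      set J : Finset (Fin d × Fin n) :=
        Finset.univ.filter (fun τ => L - m ≤ (τ.2 : ℕ) ∧ (τ.2 : ℕ) < L) with hJ
      set R : Finset (Fin d × Fin n) :=
        Finset.univ.filter (fun τ => m ≤ (τ.2 : ℕ) ∧ (τ.2 : ℕ) < L) with hR
      set w : Fin d × Fin n → ℝ := fun ρ => if ρ ∈ R then wt n d ρ else 0 with hw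
      have hw0 : ∀ ρ, 0 ≤ w ρ := fun ρ => by
        simp only [hw]; split_ifs
        · exact wt_nonneg n d ρ
        · exact le_rfl
      refine le_Phi fun v hv => ?_
      have hst := stage2 (gs n d) J R (ML n d L) (ml_closed t_rel n d L)
        (fun B hB τ hτ P hP => t_own n d L B hB τ (by
          rw [hJ, Finset.mem_filter] at hτ; omega) P hP)
        (WL n d t B (L - m)) (WL_nonneg n d hB0 _) w hw0 (L : ℝ) hLr
        (fun ρ hρ => by
          simp only [hw, hρ, if_true]
          rw [hR, Finset.mem_filter] at hρ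
          unfold wt
          have h1 : (0 : ℝ) < ((ρ.2 : ℕ) : ℝ) := by
            exact_mod_cast (by omega : 0 < (ρ.2 : ℕ))
          have h2 : ((ρ.2 : ℕ) : ℝ) ≤ (L : ℝ) := by exact_mod_cast (by omega : (ρ.2 : ℕ) ≤ L)
          exact one_div_le_one_div_of_le h1 h2)
        (fun ρ hρ => by
          rw [hJ, Finset.mem_filter] at hρ
          rw [hR, Finset.mem_filter]
          exact ⟨Finset.mem_univ _, by omega, hρ.2.2⟩)
        (fun B hB ρ hρ P hP => by
          rw [hJ, Finset.mem_filter] at hρ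
          have h := t_cnt n d L m hm1 hm2 hm3 B hB ρ (by omega) hρ.2.2 P hP
          convert h using 2)
        (gd n d) (gd_nonneg n d) (gd_card n d) (gd_tri n d)
        (fun B hB hv => by
          refine ih (L - m) (by omega) hL' (by omega) B ?_
          intro i a ha x hact hx
          by_cases haL : (a : ℕ) < L
          · by_contra hcon
            exact hv (i, a) (by rw [hJ, Finset.mem_filter]; exact ⟨Finset.mem_univ _, ha, haL⟩) x
              ⟨hact, hx, hcon⟩
          · exact hB i a (by omega) x hact hx)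
        A hA v hv
      refine hst.trans ?_
      have h1 : Real.log (L : ℝ) ≤ Real.log n :=
        Real.log_le_log (by linarith) (by exact_mod_cast hLn)
      have h2 : 6 * Real.sqrt (8 * Real.log L + 1) + 16 ≤ κ := by
        have := Real.sqrt_le_sqrt (by linarith : 8 * Real.log L + 1 ≤ 8 * Real.log n + 1)
        rw [hκ]; linarith
      have h3 : cost (WL n d t B (L - m)) v +
          (6 * Real.sqrt (8 * Real.log L + 1) + 16) * cost w v ≤
          cost (WL n d t B (L - m)) v + κ * cost w v := by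
        have := mul_le_mul_of_nonneg_right h2 (cost_nonneg w v)
        linarith
      refine h3.trans ((cost_merge _ _ (WL_nonneg n d hB0 _) hw0 κ t hκ0 ht v).trans ?_)
      refine cost_mono (fun ρ => ?_) v
      -- comparison of the weights
      have hwt := wt_nonneg n d ρ
      have hlog := log_step hm hL2
      set E' : ℝ := Real.exp (4 * Real.log ((L - m : ℕ) : ℝ) / t) with hE'
      set E : ℝ := Real.exp (4 * Real.log (L : ℝ) / t) with hE
      have hE0 : 0 < E' := Real.exp_pos _
      have hE1 : 1 ≤ E := by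
        rw [hE]
        exact Real.one_le_exp (by
          have := Real.log_nonneg hLr
          positivity)
      have hEE : (1 + 1 / t) * E' ≤ E := by
        have h4 : 1 + 1 / t ≤ Real.exp (1 / t) := by
          have := Real.add_one_le_exp (1 / t); linarith
        calc (1 + 1 / t) * E' ≤ Real.exp (1 / t) * E' := by gcongr
          _ = Real.exp (1 / t + 4 * Real.log ((L - m : ℕ) : ℝ) / t) := by
              rw [hE', ← Real.exp_add]
          _ ≤ E := by
              rw [hE]
              refine Real.exp_le_exp.2 ?_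
              rw [← add_div]
              refine div_le_div_of_nonneg_right ?_ ht.le
              linarith
      have hh0 := hh_nonneg (L - m) (ρ.2 : ℕ)
      have hmain : (1 + 1 / t) * WL n d t B (L - m) ρ ≤ E * B * hh (L - m) (ρ.2 : ℕ) * wt n d ρ := by
        have e1 : (1 + 1 / t) * WL n d t B (L - m) ρ
            = ((1 + 1 / t) * E') * (B * hh (L - m) (ρ.2 : ℕ) * wt n d ρ) := by
          unfold WL; rw [← hE']; ring
        rw [e1]
        calc ((1 + 1 / t) * E') * (B * hh (L - m) (ρ.2 : ℕ) * wt n d ρ)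
            ≤ E * (B * hh (L - m) (ρ.2 : ℕ) * wt n d ρ) := by
              refine mul_le_mul_of_nonneg_right hEE ?_
              positivity
          _ = _ := by ring
      by_cases hρ : ρ ∈ R
      · have hρ' := hρ
        rw [hR, Finset.mem_filter] at hρ'
        have h5 := hh_step hm hL2 hρ'.2.1 hρ'.2.2
        have h6 : (1 + t) * κ ^ 2 * w ρ = B * wt n d ρ := by
          simp only [hw, hρ, if_true, hB]
        rw [h6]
        have h7 : B * wt n d ρ ≤ E * B * 1 * wt n d ρ := by
          have : 0 ≤ B * wt n d ρ := by positivity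
          nlinarith
        calc (1 + 1 / t) * WL n d t B (L - m) ρ + B * wt n d ρ
            ≤ E * B * hh (L - m) (ρ.2 : ℕ) * wt n d ρ + E * B * 1 * wt n d ρ :=
              add_le_add hmain h7
          _ = E * B * (hh (L - m) (ρ.2 : ℕ) + 1) * wt n d ρ := by ring
          _ ≤ E * B * hh L (ρ.2 : ℕ) * wt n d ρ := by gcongr
          _ = WL n d t B L ρ := by unfold WL; rw [← hE]
      · have h6 : (1 + t) * κ ^ 2 * w ρ = 0 := by
          simp only [hw, hρ, if_false, mul_zero]
        rw [h6, add_zero]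
        refine hmain.trans ?_
        have h5 := hh_mono (Nat.sub_le L m) (ρ.2 : ℕ)
        calc E * B * hh (L - m) (ρ.2 : ℕ) * wt n d ρ
            ≤ E * B * hh L (ρ.2 : ℕ) * wt n d ρ := by gcongr
          _ = WL n d t B L ρ := by unfold WL; rw [← hE]

/-- The isoperimetric inequality for sets, with a factor of the order `log n`. -/
theorem dist2 (n d : ℕ) [NeZero n] (hn : 2 ≤ n) (A : Set (Pt n d)) :
    ∃ B : Set (Pt n d), IsUpperSet B ∧
      sd A B ≤ 400 * Real.log n * Phi (gs n d) (wt n d) A := by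
  obtain ⟨B, hu, hB⟩ := gd_attained n d A
  refine ⟨B, hu, ?_⟩
  rw [hB]
  have hlog : 0.69 ≤ Real.log n := by
    have h := Real.log_le_log (by norm_num : (0 : ℝ) < 2) (by exact_mod_cast hn : (2 : ℝ) ≤ n)
    linarith [Real.log_two_gt_d9]
  set x : ℝ := Real.log n with hx
  have hx0 : 0 < x := by linarith
  have ht : 0 < 4 * x := by linarith
  have h1 := dist_ind2 n d hn ht n (by omega) le_rfl A (by
    intro i a ha
    exact absurd a.2 (by omega))
  refine h1.trans ?_
  rw [← hx]
  set κ : ℝ := 6 * Real.sqrt (8 * x + 1) + 16 with hκ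
  have hκ0 : 0 ≤ κ := by positivity
  set Z : ℝ := Real.exp 1 * ((1 + 4 * x) * κ ^ 2) * 7 with hZ
  have hZ0 : 0 ≤ Z := by positivity
  have h2 : ∀ ρ, WL n d (4 * x) ((1 + 4 * x) * κ ^ 2) n ρ ≤ Z * wt n d ρ := by
    intro ρ
    unfold WL
    rw [← hx, div_self ht.ne', hZ]
    have := hh_le n (ρ.2 : ℕ)
    have := wt_nonneg n d ρ
    gcongr
  refine (Phi_mono h2 A).trans ?_
  have h3 : Phi (gs n d) (fun ρ => Z * wt n d ρ) A ≤ Real.sqrt Z * Phi (gs n d) (wt n d) A := by
    refine le_mul_Phi (Real.sqrt_nonneg _) fun v hv => ?_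
    rw [← cost_smul hZ0]
    exact Phi_le hv
  refine h3.trans (mul_le_mul_of_nonneg_right ?_ (Phi_nonneg _ _ _))
  -- the constant
  rw [show (400 * x : ℝ) = Real.sqrt ((400 * x) ^ 2) by rw [Real.sqrt_sq (by positivity)]]
  refine Real.sqrt_le_sqrt ?_
  have hsq : 0 ≤ Real.sqrt x := Real.sqrt_nonneg _
  have hsx : Real.sqrt x ^ 2 = x := Real.sq_sqrt hx0.le
  have h4 : Real.sqrt (8 * x + 1) ≤ 3.1 * Real.sqrt x := by
    have : (3.1 : ℝ) * Real.sqrt x = Real.sqrt (3.1 ^ 2 * x) := by
      rw [Real.sqrt_mul (by norm_num), Real.sqrt_sq (by norm_num)]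
    rw [this]
    exact Real.sqrt_le_sqrt (by nlinarith)
  have h5 : (0.83 : ℝ) ≤ Real.sqrt x := by
    rw [show (0.83 : ℝ) = Real.sqrt (0.83 ^ 2) by rw [Real.sqrt_sq (by norm_num)]]
    exact Real.sqrt_le_sqrt (by nlinarith)
  have h6 : κ ≤ 37.9 * Real.sqrt x := by rw [hκ]; linarith
  have h7 : κ ^ 2 ≤ 1436.5 * x := by
    have := pow_le_pow_left₀ hκ0 h6 2
    rw [mul_pow, hsx] at this
    linarith
  have h8 : 1 + 4 * x ≤ 5.45 * x := by linarith
  have h9 := Real.exp_one_lt_d9
  calc Z = Real.exp 1 * ((1 + 4 * x) * κ ^ 2) * 7 := hZ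
    _ ≤ 2.7182818286 * ((5.45 * x) * (1436.5 * x)) * 7 := by gcongr
    _ ≤ (400 * x) ^ 2 := by nlinarith [sq_nonneg x]

/-- The distance to monotonicity is at most `400 log n` times the objective. -/
theorem fin2 (n d : ℕ) (hn : 2 ≤ n) (f : Pt n d → Bool) (χ : Sym2 (Pt n d) → Bool) :
    eps f ≤ 400 * Real.log n * TPsi f χ := by
  classical
  have : NeZero n := ⟨by omega⟩
  obtain ⟨B, hB, hle⟩ := dist2 n d hn {x | f x = true}
  have hnd : (0 : ℝ) < (n : ℝ) ^ d := by
    have : 0 < n := by omega
    positivity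
  set g : Pt n d → Bool := fun x => decide (x ∈ B) with hg
  have hmono : Monotone g := by
    intro x y hxy
    by_cases hx : x ∈ B
    · have hy : y ∈ B := hB hxy hx
      simp [hg, hx, hy]
    · simp [hg, hx]
  have hcard : ((Finset.univ.filter (fun x => f x ≠ g x)).card : ℝ) = sd {x | f x = true} B := by
    unfold sd
    rw [Finset.card_filter, Nat.cast_sum]
    refine Finset.sum_congr rfl fun x _ => ?_
    by_cases h1 : f x = true
    · by_cases h2 : x ∈ B
      · simp [mem, hg, h1, h2]
      · simp [mem, hg, h1, h2]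
    · have h1' : f x = false := by simpa using h1
      by_cases h2 : x ∈ B
      · simp [mem, hg, h1', h2]
      · simp [mem, hg, h1', h2]
  have h1 : eps f ≤ ((Finset.univ.filter (fun x => f x ≠ g x)).card : ℝ) / (n : ℝ) ^ d := by
    unfold eps
    refine csInf_le ⟨0, ?_⟩ ⟨g, hmono, ?_⟩
    · rintro r ⟨g', -, rfl⟩
      positivity
    · congr
  rw [hcard] at h1
  have h4 := t_tr n d f χ
  have hlog : 0 ≤ Real.log n := Real.log_nonneg (by exact_mod_cast (by omega : 1 ≤ n))
  have h2 : sd {x | f x = true} B ≤ 400 * Real.log n * ((n : ℝ) ^ d * TPsi f χ) :=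
    hle.trans (mul_le_mul_of_nonneg_left h4 (by positivity))
  calc eps f ≤ sd {x | f x = true} B / (n : ℝ) ^ d := h1
    _ ≤ (400 * Real.log n * ((n : ℝ) ^ d * TPsi f χ)) / (n : ℝ) ^ d :=
        div_le_div_of_nonneg_right h2 hnd.le
    _ = 400 * Real.log n * TPsi f χ := by
        field_simp

end Pool.Agent.H74.HG
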