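import Pool.Graph.R_pool_sql_team_seeded_3997aac3.Q90.HG.Fin

set_option autoImplicit false

/-!
One stage of the scale by scale argument, with separate weights for the scales. The proof is that
of the library lemma `Pool.Agent.Q90.HG.t_stage`; the movement in the stage is charged to the
weights of the current scale only.
-/

namespace Pool.Agent.H74.HG

open Pool.Agent.Q90.HG Pool.Agent.Q90.HG.StageAux

open Classical in
/-- One stage, with separate weights for the rest (`W`) and for the current scale (`w`). -/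
theorem stage2 {V I : Type} [Fintype V] [Fintype I] (S : Sys V I) (J R : Finset I)
    (C : Set (Set V)) (hC : Cl S C)
    (hown : ∀ A ∈ C, ∀ τ ∈ J, ∀ P, Vi S A τ P → K1 S A τ τ P ∧ K2 S A τ τ P)
    (W : I → ℝ) (hW : ∀ ρ, 0 ≤ W ρ)
    (w : I → ℝ) (hw : ∀ ρ, 0 ≤ w ρ) (L : ℝ) (hL : 1 ≤ L) (hwR : ∀ ρ ∈ R, 1 / L ≤ w ρ)
    (hJR : J ⊆ R)
    (hcnt : ∀ A ∈ C, ∀ ρ ∈ J, ∀ P, Vi S A ρ P →
      L / 4 ≤ ∑ τ ∈ R, ((if K1 S A τ ρ P then (1 : ℝ) else 0) +
        (if K2 S A τ ρ P then (1 : ℝ) else 0)))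
    (G : Set V → ℝ) (hG0 : ∀ A, 0 ≤ G A)
    (hG1 : ∀ A, G A ≤ Fintype.card V) (hG2 : ∀ A B, G A ≤ sd A B + G B)
    (hGJ : ∀ A ∈ C, (∀ ρ ∈ J, ∀ P, ¬ Vi S A ρ P) → G A ≤ Phi S W A) :
    ∀ A ∈ C, ∀ v, Spl S A v →
      G A ≤ cost W v + (6 * Real.sqrt (8 * Real.log L + 1) + 16) * cost w v := by
  intro A hA v hv
  have hm := mov_all
  have hs := super_all
  have hl := long_all
  have hL0 : 0 < L := by linarith
  set M : ℝ := 2 * (R.card : ℝ) + 1 with hM
  have hM1 : 1 ≤ M := by rw [hM]; linarith [Nat.cast_nonneg (α := ℝ) R.card]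
  have hM0 : 0 < M := by linarith
  set p : I → ℝ := fun τ => if τ ∈ R then 1 / (M * L) else 0 with hp
  have hp0 : ∀ τ, 0 ≤ p τ := by
    intro τ; simp only [hp]; split_ifs
    · positivity
    · exact le_rfl
  have hPr : Pr p := by
    refine ⟨hp0, ?_⟩
    have h1 : ∑ τ, p τ = (R.card : ℝ) * (1 / (M * L)) := by
      simp only [hp]
      rw [Finset.sum_ite_mem, Finset.univ_inter, Finset.sum_const, nsmul_eq_mul]
    rw [h1, mul_one_div, div_le_iff₀ (by positivity)]
    have : M ≤ M * L := le_mul_of_one_le_right hM0.le hL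
    have h2 : (R.card : ℝ) ≤ 1 / 2 * M := by rw [hM]; linarith
    linarith
  set lam : ℝ := 1 - 1 / (8 * M) with hlam
  have hlam0 : 0 < lam := by
    have : 1 / (8 * M) ≤ 1 / 8 := by
      apply one_div_le_one_div_of_le <;> linarith
    rw [hlam]; linarith
  set ck : ℕ → I → ℝ := fun k ρ => if ρ ∈ J then w ρ / lam ^ k else w ρ with hck
  have hck0 : ∀ k ρ, 0 ≤ ck k ρ := by
    intro k ρ; simp only [hck]; split_ifs
    · exact div_nonneg (hw ρ) (pow_nonneg hlam0.le _)
    · exact hw ρ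
  have hKnn : ∀ (B : Set V) (ρ : I) (P : V) (τ : I), 0 ≤ p τ / 2 *
      ((if K1 S B τ ρ P then (1 : ℝ) else 0) + (if K2 S B τ ρ P then (1 : ℝ) else 0)) := by
    intro B ρ P τ
    refine mul_nonneg (by linarith [hp0 τ]) ?_
    split_ifs <;> norm_num
  have hsup : ∀ k, ∀ B ∈ C, T S p (Phi S (ck (k + 1))) B ≤ Phi S (ck k) B := by
    intro k B hB
    refine hs V I S p hPr (ck k) (ck (k + 1)) (hck0 k) (hck0 (k + 1)) B ?_
    intro ρ P hP
    by_cases hρ : ρ ∈ J
    · have h1 := hcnt B hB ρ hρ P hP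
      have h2 : 1 / (8 * M) ≤ ∑ τ, p τ / 2 * ((if K1 S B τ ρ P then (1 : ℝ) else 0) +
          (if K2 S B τ ρ P then (1 : ℝ) else 0)) := by
        calc 1 / (8 * M) = 1 / (2 * M * L) * (L / 4) := by field_simp; ring
          _ ≤ 1 / (2 * M * L) * ∑ τ ∈ R, ((if K1 S B τ ρ P then (1 : ℝ) else 0) +
              (if K2 S B τ ρ P then (1 : ℝ) else 0)) :=
            mul_le_mul_of_nonneg_left h1 (by positivity)
          _ = ∑ τ ∈ R, p τ / 2 * ((if K1 S B τ ρ P then (1 : ℝ) else 0) +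
              (if K2 S B τ ρ P then (1 : ℝ) else 0)) := by
            rw [Finset.mul_sum]
            refine Finset.sum_congr rfl fun τ hτ => ?_
            simp only [hp, hτ, if_true]
            congr 1
            field_simp
          _ ≤ _ := Finset.sum_le_sum_of_subset_of_nonneg (Finset.subset_univ _)
            (fun τ _ _ => hKnn B ρ P τ)
      simp only [hck, hρ, if_true]
      have h3 : w ρ / lam ^ (k + 1) * lam = w ρ / lam ^ k := by
        rw [pow_succ]; field_simp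
      rw [← h3]
      refine mul_le_mul_of_nonneg_left ?_ (div_nonneg (hw ρ) (pow_nonneg hlam0.le _))
      rw [hlam]; linarith
    · simp only [hck, hρ, if_false]
      have h4 := Finset.sum_nonneg (fun τ (_ : τ ∈ Finset.univ) => hKnn B ρ P τ)
      nlinarith [hw ρ]
  have hiter : ∀ N k, ∀ B ∈ C, ((T S p)^[N] (Phi S (ck (k + N)))) B ≤ Phi S (ck k) B := by
    intro N
    induction N with
    | zero => intro k B _; exact le_rfl
    | succ N ih =>
      intro k B hB
      rw [Function.iterate_succ_apply]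
      exact (iter_mono_on hPr hC (fun B' hB' => hsup (k + N) B' hB') N B hB).trans (ih k B hB)
  have hw1 : ∀ B, T S p (Phi S W) B ≤ Phi S W B := by
    intro B
    refine hs V I S p hPr W W hW hW B ?_
    intro ρ P _
    have h4 := Finset.sum_nonneg (fun τ (_ : τ ∈ Finset.univ) => hKnn B ρ P τ)
    nlinarith [hW ρ]
  have hw2 : ∀ N B, ((T S p)^[N] (Phi S W)) B ≤ Phi S W B := by
    intro N
    induction N with
    | zero => intro B; exact le_rfl
    | succ N ih =>
      intro B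
      rw [Function.iterate_succ_apply]
      exact (iter_mono hPr hw1 N B).trans (ih B)
  -- the number of steps
  have hlog : 0 ≤ Real.log L := Real.log_nonneg hL
  set N : ℕ := ⌈8 * M * Real.log L⌉₊ with hN
  have hN1 : 8 * M * Real.log L ≤ N := Nat.le_ceil _
  have hN2 : (N : ℝ) ≤ 8 * M * Real.log L + 1 := (Nat.ceil_lt_add_one (by positivity)).le
  have hlamN : lam ^ N ≤ 1 / L := by
    have h1 : lam ≤ Real.exp (-(1 / (8 * M))) := by
      have := Real.add_one_le_exp (-(1 / (8 * M)))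
      rw [hlam]; linarith
    have h2 : lam ^ N ≤ Real.exp (-(1 / (8 * M))) ^ N := pow_le_pow_left₀ hlam0.le h1 N
    rw [← Real.exp_nat_mul] at h2
    refine h2.trans ?_
    have h3 : (N : ℝ) * -(1 / (8 * M)) ≤ -Real.log L := by
      have h4 : Real.log L = 8 * M * Real.log L / (8 * M) :=
        (mul_div_cancel_left₀ _ (mul_pos (by norm_num) hM0).ne').symm
      have h5 : 8 * M * Real.log L / (8 * M) ≤ (N : ℝ) / (8 * M) :=
        div_le_div_of_nonneg_right hN1 (mul_pos (by norm_num) hM0).le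
      have h6 : (N : ℝ) * -(1 / (8 * M)) = -((N : ℝ) / (8 * M)) := by ring
      rw [h6]; linarith
    calc Real.exp ((N : ℝ) * -(1 / (8 * M))) ≤ Real.exp (-Real.log L) := Real.exp_le_exp.2 h3
      _ = 1 / L := by rw [Real.exp_neg, Real.exp_log hL0, one_div]
  have hJle : ∀ ρ, (if ρ ∈ J then (1 : ℝ) else 0) ≤ ck N ρ := by
    intro ρ
    simp only [hck]
    split_ifs with hρ
    · have h1 := hwR ρ (hJR hρ)
      rw [le_div_iff₀ (pow_pos hlam0 N), one_mul]
      exact hlamN.trans h1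
    · exact hw ρ
  have hlong : ((T S p)^[N] (Phi S (fun ρ => if ρ ∈ J then 1 else 0))) A ≤ Phi S w A := by
    have h1 := iter_mono (S := S) hPr (F := Phi S (fun ρ => if ρ ∈ J then 1 else 0))
      (G := Phi S (ck N)) (fun B => Phi_mono hJle B) N A
    have h2 := hiter N 0 A hA
    rw [zero_add] at h2
    have h3 : ck 0 = w := by
      funext ρ
      show (if ρ ∈ J then w ρ / lam ^ 0 else w ρ) = w ρ
      rw [pow_zero, div_one, ite_self]
    rw [h3] at h2
    exact h1.trans h2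
  -- the movement
  have hmov : ((T S p)^[N] (sd A)) A ≤ 6 * Real.sqrt (8 * Real.log L + 1) * cost w v := by
    refine (hm V I S p hPr N A v hv).trans ?_
    have h1 : cost p v ≤ Real.sqrt (1 / M) * cost w v := by
      rw [← cost_smul (by positivity)]
      refine cost_mono (fun ρ => ?_) v
      simp only [hp]
      split_ifs with hρ
      · have h2 := mul_le_mul_of_nonneg_left (hwR ρ hρ) (one_div_nonneg.2 hM0.le)
        rw [one_div_mul_one_div] at h2
        exact h2
      · exact mul_nonneg (one_div_nonneg.2 hM0.le) (hw ρ)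
    have h2 : Real.sqrt N * Real.sqrt (1 / M) ≤ Real.sqrt (8 * Real.log L + 1) := by
      rw [← Real.sqrt_mul (Nat.cast_nonneg N)]
      refine Real.sqrt_le_sqrt ?_
      rw [mul_one_div, div_le_iff₀ hM0]
      nlinarith
    calc 6 * Real.sqrt N * cost p v ≤ 6 * Real.sqrt N * (Real.sqrt (1 / M) * cost w v) :=
          mul_le_mul_of_nonneg_left h1 (by positivity)
      _ = 6 * (Real.sqrt N * Real.sqrt (1 / M)) * cost w v := by ring
      _ ≤ 6 * Real.sqrt (8 * Real.log L + 1) * cost w v := by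
          refine mul_le_mul_of_nonneg_right ?_ (cost_nonneg w v)
          exact mul_le_mul_of_nonneg_left h2 (by norm_num)
  -- conclusion
  have hGA : G A ≤ ((T S p)^[N] (sd A)) A + ((T S p)^[N] G) A := by
    rw [← iter_add]
    have h1 := iter_mono (S := S) hPr (F := fun _ => G A) (G := fun B => sd A B + G B)
      (fun B => hG2 A B) N A
    rw [iter_const] at h1
    exact h1
  have hTG : ((T S p)^[N] G) A ≤ Phi S W A + 16 * Phi S w A := by
    have h1 := iter_mono_on (S := S) hPr hC (F := G)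
      (G := fun B => 1 * Phi S W B + 16 * Phi S (fun ρ => if ρ ∈ J then 1 else 0) B)
      (fun B hB => hl V I S J C hC hown W hW G hG0 hG1 hG2 1 zero_le_one
        (fun B' hB' hc' => by rw [one_mul]; exact hGJ B' hB' hc') B hB) N A hA
    rw [iter_add, iter_mul, iter_mul] at h1
    have h2 := hw2 N A
    linarith
  have e1 : Phi S W A ≤ cost W v := Phi_le hv
  have e2 : Phi S w A ≤ cost w v := Phi_le hv
  calc G A ≤ ((T S p)^[N] (sd A)) A + ((T S p)^[N] G) A := hGA
    _ ≤ 6 * Real.sqrt (8 * Real.log L + 1) * cost w v +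
        (Phi S W A + 16 * Phi S w A) := add_le_add hmov hTG
    _ ≤ 6 * Real.sqrt (8 * Real.log L + 1) * cost w v +
        (cost W v + 16 * cost w v) := by linarith
    _ = _ := by ring

/-- Merging two costs of the same split. -/
theorem cost_merge {V I : Type} [Fintype V] [Fintype I] (W w : I → ℝ) (hW : ∀ ρ, 0 ≤ W ρ)
    (hw : ∀ ρ, 0 ≤ w ρ) (κ t : ℝ) (_hκ : 0 ≤ κ) (ht : 0 < t) (v : I → V → ℝ) :
    cost W v + κ * cost w v ≤ cost (fun ρ => (1 + 1 / t) * W ρ + (1 + t) * κ ^ 2 * w ρ) v := by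
  unfold cost
  rw [Finset.mul_sum, ← Finset.sum_add_distrib]
  refine Finset.sum_le_sum fun x _ => ?_
  set X := ∑ ρ, W ρ * v ρ x ^ 2 with hX
  set Y := ∑ ρ, w ρ * v ρ x ^ 2 with hY
  have hX0 : 0 ≤ X := Finset.sum_nonneg fun ρ _ => mul_nonneg (hW ρ) (sq_nonneg _)
  have hY0 : 0 ≤ Y := Finset.sum_nonneg fun ρ _ => mul_nonneg (hw ρ) (sq_nonneg _)
  have hsum : ∑ ρ, ((1 + 1 / t) * W ρ + (1 + t) * κ ^ 2 * w ρ) * v ρ x ^ 2
      = (1 + 1 / t) * X + (1 + t) * κ ^ 2 * Y := by
    rw [hX, hY, Finset.mul_sum, Finset.mul_sum, ← Finset.sum_add_distrib]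
    exact Finset.sum_congr rfl fun ρ _ => by ring
  rw [hsum]
  refine Real.le_sqrt_of_sq_le ?_
  have h1 := Real.sq_sqrt hX0
  have h2 := Real.sq_sqrt hY0
  have h3 : 2 * (Real.sqrt X * (κ * Real.sqrt Y)) ≤ 1 / t * X + t * (κ ^ 2 * Y) := by
    have h4 : 0 ≤ (1 / t) * (Real.sqrt X - t * (κ * Real.sqrt Y)) ^ 2 := by positivity
    have h5 : (1 / t) * (Real.sqrt X - t * (κ * Real.sqrt Y)) ^ 2
        = 1 / t * Real.sqrt X ^ 2 - 2 * (Real.sqrt X * (κ * Real.sqrt Y))
          + t * (κ ^ 2 * Real.sqrt Y ^ 2) := by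
      field_simp
      ring
    rw [h5, h1, h2] at h4
    linarith
  calc (Real.sqrt X + κ * Real.sqrt Y) ^ 2
      = Real.sqrt X ^ 2 + 2 * (Real.sqrt X * (κ * Real.sqrt Y)) + κ ^ 2 * Real.sqrt Y ^ 2 := by ring
    _ = X + 2 * (Real.sqrt X * (κ * Real.sqrt Y)) + κ ^ 2 * Y := by rw [h1, h2]
    _ ≤ _ := by linarith

end Pool.Agent.H74.HG
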